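import Pool.Agent.H36.SubT

open Pool.Agent.H38.NP Pool.Agent.H36.SubT

theorem Pool.Agent.Results.MP_bfbf95_lc.Hard.result :
    NPHardOn (fun p : ℕ × List (ℕ × ℕ) => ∀ v, ∃ u, (graphOf p.1 p.2).Adj v u)
      fun p => gammaT (graphOf p.1 p.2) = subT (graphOf p.1 p.2) :=
  hard.npHardOn
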